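import Pool.Agent.W703.WMP

set_option autoImplicit false

open scoped ENNReal
open Pool.Agent.W703.WMP

namespace Pool.Agent.Results.MP_479f73_an.OnlyFiniteDimensional

/-- Let `E` be a real or complex Banach space. Then `(E, F)` has the weak maximizing property for
every Banach space `F` if and only if `E` is finite dimensional, and this already holds as soon as
the single pair `(E, ℓ_∞)` has the weak maximizing property. -/
theorem result.{u} (𝕜 : Type) [RCLike 𝕜] (E : Type u) [NormedAddCommGroup E] [NormedSpace 𝕜 E]
    [CompleteSpace E] :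
    List.TFAE [FiniteDimensional 𝕜 E,
      ∀ (F : Type) [NormedAddCommGroup F] [NormedSpace 𝕜 F] [CompleteSpace F], HasWMP 𝕜 E F,
      HasWMP 𝕜 E (lp (fun _ : ℕ => 𝕜) ∞)] := by
  tfae_have 1 → 2 := by
    intro h F _ _ _
    exact WMP_of_finiteDimensional F
  tfae_have 2 → 3 := fun h => h _
  tfae_have 3 → 1 := finiteDimensional_of_WMP
  tfae_finish

end Pool.Agent.Results.MP_479f73_an.OnlyFiniteDimensional
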